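import Pool.Agent.Helper72.EP.Spec2

/-! Module DL: the demand lemma. -/

namespace ErdPos

open Finset

section
variable {V : Type} [DecidableEq V]

/-- the graph restricted to `U` -/
def dl_G (G : SimpleGraph V) (U : Finset V) : SimpleGraph V where
  Adj x y := G.Adj x y ∧ x ∈ U ∧ y ∈ U
  symm := by
    constructor
    rintro x y ⟨h1, h2, h3⟩
    exact ⟨h1.symm, h3, h2⟩
  loopless := by
    constructor
    rintro x ⟨h1, _, _⟩
    exact G.loopless.irrefl _ h1

/-- the family of the paths of all indices -/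
def dl_F (G : SimpleGraph V) {ι : Type} (a b : ι → V) (fl : ι → Prop) (U : Finset V) :
    Finset V → Prop :=
  fun M => ∃ i T, Pth (dl_G G U) (a i) (b i) M T ∧ M ⊆ U ∧ (fl i → 3 ≤ M.card)

lemma dl_pth_to (hP : ST_PA) {G : SimpleGraph V} {U : Finset V} {x y : V} {S : Finset V}
    {T : Finset (Sym2 V)} (h : Pth G x y S T) (hS : S ⊆ U) : Pth (dl_G G U) x y S T := by
  refine (hP V G).transfer (dl_G G U) x y S T h (fun e he => ?_)
  obtain ⟨u, hu, v, hv, huv, rfl⟩ := (hP V G).tmem x y S T h e he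
  exact ⟨huv, hS hu, hS hv⟩

lemma dl_pth_from (hP : ST_PA) {G : SimpleGraph V} {U : Finset V} {x y : V} {S : Finset V}
    {T : Finset (Sym2 V)} (h : Pth (dl_G G U) x y S T) : Pth G x y S T := by
  refine (hP V (dl_G G U)).transfer G x y S T h (fun e he => ?_)
  obtain ⟨u, hu, v, hv, huv, rfl⟩ := (hP V (dl_G G U)).tmem x y S T h e he
  exact huv.1

lemma dl_sub {G : SimpleGraph V} {U C : Finset V} (hC : Conn (dl_G G U) C) {M : Finset V}
    (hM : M ⊆ C) (hne : M.Nonempty) (hMU : M ⊆ U) : C ⊆ U := by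
  intro v hv
  by_cases h : ({v} : Finset V) = C
  · obtain ⟨w, hw⟩ := hne
    have := hM hw
    rw [← h, mem_singleton] at this
    rw [← this]
    exact hMU hw
  · obtain ⟨x, hx, y, hy, hxy⟩ := hC.2 {v} (singleton_subset_iff.2 hv) (singleton_nonempty v) h
    rw [mem_singleton] at hx
    rw [← hx]
    exact hxy.2.1

lemma dl_loc (hP : ST_PA) (G : SimpleGraph V) {ι : Type} (a b : ι → V) (fl : ι → Prop)
    (U : Finset V) :
    Loc (dl_G G U) (dl_F G a b fl U) (fun _ => 0) 2 := by
  intro k C hC _ hHt _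
  have PA := hP V (dl_G G U)
  have hM : ∃ M, dl_F G a b fl U M ∧ M ⊆ C := by
    by_contra hcon
    push Not at hcon
    exact hHt ⟨∅, by simp, fun M hM hMC => absurd hMC (hcon M hM)⟩
  obtain ⟨M, ⟨i, T, hpth, hMU, hcard⟩, hMC⟩ := hM
  have hends := PA.ends _ _ _ _ hpth
  have hCU : C ⊆ U := dl_sub hC hMC ⟨a i, hends.1⟩ hMU
  refine ⟨{a i, b i}, ?_, card_le_two, ?_⟩
  · intro x hx
    rw [mem_insert, mem_singleton] at hx
    rcases hx with rfl | rfl
    · exact hMC hends.1
    · exact hMC hends.2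
  intro C' hC'X hC' _
  have haC' : a i ∉ C' := fun h => (mem_sdiff.1 (hC'X h)).2 (mem_insert_self _ _)
  have hbC' : b i ∉ C' := fun h => (mem_sdiff.1 (hC'X h)).2
    (mem_insert_of_mem (mem_singleton_self _))
  have hC'C : C' ⊆ C := fun x hx => (mem_sdiff.1 (hC'X hx)).1
  by_cases hint : (M ∩ C').Nonempty
  swap
  · refine ⟨M, [], ?_, List.nodup_nil, by simp, ?_⟩
    · intro x hx
      refine mem_sdiff.2 ⟨hMC hx, fun h => hint ⟨x, mem_inter.2 ⟨hx, h⟩⟩⟩
    · exact ⟨M, ⟨i, T, hpth, hMU, hcard⟩, subset_rfl⟩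
  -- first hit
  obtain ⟨x, hxC', S1, T1, R, TR, h1, h2, h3, h4, h5, _, _⟩ :=
    PA.first _ _ _ _ C' hpth hint
  have hax : x ≠ a i := fun h => haC' (h ▸ hxC')
  obtain ⟨e1, S1', T1', he1, hp1, hx1, hS1, _, _⟩ := PA.step _ _ _ _ h1.symm hax
  have hxR : x ∈ R := (PA.ends _ _ _ _ h2).1
  obtain ⟨x', hx'C', S2, T2, R2, TR2, g1, g2, g3, g4, g5, _, _⟩ :=
    PA.first _ _ _ _ C' h2.symm ⟨x, mem_inter.2 ⟨hxR, hxC'⟩⟩
  have hbx : x' ≠ b i := fun h => hbC' (h ▸ hx'C')
  obtain ⟨e2, S2', T2', he2, hp2, hx2, hS2, _, _⟩ := PA.step _ _ _ _ g1.symm hbx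
  -- disjointness facts
  have d1 : ∀ z ∈ S1', z ∉ C' := by
    intro z hz hzC
    have : z ∈ S1 ∩ C' := mem_inter.2 ⟨by rw [hS1]; exact mem_insert_of_mem hz, hzC⟩
    rw [h3, mem_singleton] at this
    exact hx1 (this ▸ hz)
  have d2 : ∀ z ∈ S2', z ∉ C' := by
    intro z hz hzC
    have : z ∈ S2 ∩ C' := mem_inter.2 ⟨by rw [hS2]; exact mem_insert_of_mem hz, hzC⟩
    rw [g3, mem_singleton] at this
    exact hx2 (this ▸ hz)
  have d12 : ∀ z ∈ S1', z ∉ S2' := by
    intro z hz hz2
    have hzR : z ∈ R := by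
      rw [← g5]
      exact mem_union_left _ (by rw [hS2]; exact mem_insert_of_mem hz2)
    have : z ∈ S1 ∩ R := mem_inter.2 ⟨by rw [hS1]; exact mem_insert_of_mem hz, hzR⟩
    rw [h4, mem_singleton] at this
    exact hx1 (this ▸ hz)
  have s1 : S1' ⊆ M := by
    intro z hz
    rw [← h5]
    exact mem_union_left _ (by rw [hS1]; exact mem_insert_of_mem hz)
  have s2 : S2' ⊆ M := by
    intro z hz
    rw [← h5]
    refine mem_union_right _ ?_
    rw [← g5]
    exact mem_union_left _ (by rw [hS2]; exact mem_insert_of_mem hz)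
  have e1S := (PA.ends _ _ _ _ hp1).1
  have e2S := (PA.ends _ _ _ _ hp2).1
  have aS := (PA.ends _ _ _ _ hp1).2
  have bS := (PA.ends _ _ _ _ hp2).2
  refine ⟨S1' ∪ S2', [e1, e2], ?_, ?_, ?_, ?_⟩
  · intro z hz
    rcases mem_union.1 hz with hz | hz
    · exact mem_sdiff.2 ⟨hMC (s1 hz), d1 z hz⟩
    · exact mem_sdiff.2 ⟨hMC (s2 hz), d2 z hz⟩
  · rw [List.nodup_cons]
    refine ⟨fun h => ?_, List.nodup_singleton _⟩
    rw [List.mem_singleton] at h
    exact d12 e1 e1S (h ▸ e2S)
  · intro z hz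
    rw [List.mem_cons, List.mem_singleton] at hz
    rcases hz with rfl | rfl
    · exact ⟨mem_union_left _ e1S, x, hxC', he1.symm⟩
    · exact ⟨mem_union_right _ e2S, x', hx'C', he2.symm⟩
  · change ∀ L, L ⊆ C' → Conn (dl_G G U) L → Ad (dl_G G U) e1 L → Ad (dl_G G U) e2 L →
      Has (dl_F G a b fl U) ((S1' ∪ S2') ∪ L)
    intro L hLC hL hA1 hA2
    obtain ⟨y1, hy1, hy1'⟩ := hA1
    obtain ⟨y2, hy2, hy2'⟩ := hA2
    obtain ⟨SL, TL, hSL, hpL⟩ := PA.ofconn L y1 y2 hL hy1 hy2
    have c1 := PA.concat _ _ _ _ _ _ _ hp1.symm (PA.edge e1 y1 hy1') (by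
      intro z hz
      obtain ⟨hz1, hz2⟩ := mem_inter.1 hz
      rw [mem_insert, mem_singleton] at hz2
      rcases hz2 with rfl | rfl
      · exact mem_singleton_self _
      · exact absurd (hLC hy1) (d1 _ hz1))
    have c2 := PA.concat _ _ _ _ _ _ _ c1.1 hpL (by
      intro z hz
      obtain ⟨hz1, hz2⟩ := mem_inter.1 hz
      have hzC := hLC (hSL hz2)
      rw [mem_union, mem_insert, mem_singleton] at hz1
      rcases hz1 with hz1 | rfl | rfl
      · exact absurd hzC (d1 _ hz1)
      · exact absurd hzC (d1 _ e1S)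
      · exact mem_singleton_self _)
    have c3 := PA.concat _ _ _ _ _ _ _ c2.1 (PA.edge y2 e2 hy2'.symm) (by
      intro z hz
      obtain ⟨hz1, hz2⟩ := mem_inter.1 hz
      rw [mem_insert, mem_singleton] at hz2
      rcases hz2 with rfl | rfl
      · exact mem_singleton_self _
      · exfalso
        rw [mem_union, mem_union, mem_insert, mem_singleton] at hz1
        rcases hz1 with (hz1 | rfl | rfl) | hz1
        · exact d12 _ hz1 e2S
        · exact d12 _ e1S e2S
        · exact d2 _ e2S (hLC hy1)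
        · exact d2 _ e2S (hLC (hSL hz1)))
    have c4 := PA.concat _ _ _ _ _ _ _ c3.1 hp2 (by
      intro z hz
      obtain ⟨hz1, hz2⟩ := mem_inter.1 hz
      rw [mem_union, mem_union, mem_union, mem_insert, mem_singleton, mem_insert,
        mem_singleton] at hz1
      rcases hz1 with ((hz1 | rfl | rfl) | hz1) | rfl | rfl
      · exact absurd hz2 (d12 _ hz1)
      · exact absurd hz2 (d12 _ e1S)
      · exact absurd (hLC hy1) (d2 _ hz2)
      · exact absurd (hLC (hSL hz1)) (d2 _ hz2)
      · exact absurd (hLC hy2) (d2 _ hz2)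
      · exact mem_singleton_self _)
    have hsub : (((S1' ∪ {e1, y1}) ∪ SL) ∪ {y2, e2}) ∪ S2' ⊆ (S1' ∪ S2') ∪ L := by
      intro z hz
      simp only [mem_union, mem_insert, mem_singleton] at hz ⊢
      rcases hz with (((hz | rfl | rfl) | hz) | rfl | rfl) | hz
      · exact Or.inl (Or.inl hz)
      · exact Or.inl (Or.inl e1S)
      · exact Or.inr hy1
      · exact Or.inr (hSL hz)
      · exact Or.inr hy2
      · exact Or.inl (Or.inr e2S)
      · exact Or.inl (Or.inr hz)
    refine ⟨_, ⟨i, _, c4.1, ?_, ?_⟩, hsub⟩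
    · intro z hz
      rcases mem_union.1 (hsub hz) with h | h
      · rcases mem_union.1 h with h | h
        · exact hMU (s1 h)
        · exact hMU (s2 h)
      · exact hCU (hC'C (hLC h))
    · intro _
      have hsub3 : ({a i, y1, b i} : Finset V) ⊆
          (((S1' ∪ {e1, y1}) ∪ SL) ∪ {y2, e2}) ∪ S2' := by
        intro z hz
        simp only [mem_insert, mem_singleton] at hz
        simp only [mem_union, mem_insert, mem_singleton]
        rcases hz with rfl | rfl | rfl
        · exact Or.inl (Or.inl (Or.inl (Or.inl aS)))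
        · exact Or.inl (Or.inl (Or.inl (Or.inr (Or.inr rfl))))
        · exact Or.inr bS
      have hab : a i ≠ b i := fun h => d12 _ aS (h ▸ bS)
      have hay : a i ≠ y1 := fun h => haC' (h ▸ hLC hy1)
      have hyb : y1 ≠ b i := fun h => hbC' (h ▸ hLC hy1)
      have h3 : ({a i, y1, b i} : Finset V).card = 3 := by
        rw [card_insert_of_notMem, card_insert_of_notMem, card_singleton]
        · rw [mem_singleton]; exact hyb
        · rw [mem_insert, mem_singleton, not_or]; exact ⟨hay, hab⟩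
      rw [← h3]
      exact card_le_card hsub3

end

theorem st_DL (h1 : ST_ENG) (h2 : ST_PA) : ST_DL := by
  classical
  obtain ⟨f, hf⟩ := h1 (fun _ => 0) 2
  refine ⟨fun k => f (4 * k), ?_⟩
  intro V _ _ G ι a b fl U k _
  have hconn : ∀ M, dl_F G a b fl U M → Conn (dl_G G U) M := by
    rintro M ⟨i, T, hp, _, _⟩
    exact (h2 V (dl_G G U)).conn _ _ _ _ hp
  rcases hf V (dl_G G U) (dl_F G a b fl U) hconn (dl_loc h2 G a b fl U) U (4 * k) with h | h
  · left
    obtain ⟨M, hM, hcong⟩ := h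
    choose hMF hMU using hM
    choose ix TT hix using hMF
    have hfib : ∀ i, (univ.filter (fun j => ix j = i)).card ≤ 4 := by
      intro i
      refine le_trans (card_le_card ?_) (hcong (a i))
      intro j hj
      rw [mem_filter] at hj ⊢
      refine ⟨hj.1, ?_⟩
      have := ((h2 V (dl_G G U)).ends _ _ _ _ (hix j).1).1
      rw [hj.2] at this
      exact this
    have hcard : k ≤ (univ.image ix).card := by
      have h4 : (univ : Finset (Fin (4 * k))).card ≤ 4 * (univ.image ix).card := by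
        refine card_le_mul_card_image univ 4 (fun i _ => hfib i)
      rw [card_univ, Fintype.card_fin] at h4
      omega
    obtain ⟨I, hI, hIk⟩ := exists_subset_card_eq hcard
    have hex : ∀ i ∈ I, ∃ j, ix j = i := by
      intro i hi
      obtain ⟨j, _, hj⟩ := mem_image.1 (hI hi)
      exact ⟨j, hj⟩
    refine ⟨I, fun i => if h : ∃ j, ix j = i then M h.choose else ∅, hIk, ?_, ?_⟩
    · intro i hi
      have hj := hex i hi
      have hjs := hj.choose_spec
      simp only [dif_pos hj]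
      refine ⟨hMU _, ⟨TT hj.choose, ?_⟩, ?_⟩
      · have := dl_pth_from h2 (hix hj.choose).1
        rw [hjs] at this
        exact this
      · intro hfi
        have := (hix hj.choose).2.2
        rw [hjs] at this
        exact this hfi
    · intro v
      have hsub : I.filter (fun i => v ∈ (if h : ∃ j, ix j = i then M h.choose else ∅)) ⊆
          (univ.filter (fun j => v ∈ M j)).image ix := by
        intro i hi
        obtain ⟨hiI, hv⟩ := mem_filter.1 hi
        have hj := hex i hiI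
        rw [dif_pos hj] at hv
        exact mem_image.2 ⟨hj.choose, mem_filter.2 ⟨mem_univ _, hv⟩, hj.choose_spec⟩
      exact ((card_le_card hsub).trans card_image_le).trans (hcong v)
  · right
    obtain ⟨Z, hZ, hh⟩ := h
    refine ⟨Z, hZ, fun i S T hp hS hc => ?_⟩
    exact hh S ⟨i, T, dl_pth_to h2 hp hS, hS, hc⟩ hS

end ErdPos
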