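import Pool.Agent.Helper72.EP.Spec2

/-! Module THE: theta graphs. -/

namespace ErdPos

open Finset

section
variable {V : Type} [DecidableEq V]

lemma the_path (hP : ST_PA) {G : SimpleGraph V} {u v : V} {L : Finset V} (huv : u ≠ v)
    (hL : Conn G L) (hu : u ∉ L) (hv : v ∉ L) (h1 : Ad G u L) (h2 : Ad G v L) :
    ∃ P Q, Pth G u v P Q ∧ P ⊆ insert u (insert v L) ∧ ∃ y ∈ L, s(u, y) ∈ Q := by
  have PA := hP V G
  obtain ⟨y, hy, huy⟩ := h1
  obtain ⟨z, hz, hvz⟩ := h2
  obtain ⟨S1, T1, hS1, hp⟩ := PA.ofconn L y z hL hy hz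
  have c1 := PA.concat _ _ _ _ _ _ _ (PA.edge u y huy) hp (by
    intro w hw
    obtain ⟨hw1, hw2⟩ := mem_inter.1 hw
    rw [mem_insert, mem_singleton] at hw1
    rcases hw1 with rfl | rfl
    · exact absurd (hS1 hw2) hu
    · exact mem_singleton_self _)
  have c2 := PA.concat _ _ _ _ _ _ _ c1.1 (PA.edge z v hvz.symm) (by
    intro w hw
    obtain ⟨hw1, hw2⟩ := mem_inter.1 hw
    rw [mem_insert, mem_singleton] at hw2
    rcases hw2 with rfl | rfl
    · exact mem_singleton_self _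
    · exfalso
      rw [mem_union, mem_insert, mem_singleton] at hw1
      rcases hw1 with (rfl | rfl) | hw1
      · exact huv rfl
      · exact hv hy
      · exact hv (hS1 hw1))
  refine ⟨_, _, c2.1, ?_, y, hy, ?_⟩
  · intro w hw
    simp only [mem_union, mem_insert, mem_singleton] at hw ⊢
    rcases hw with ((rfl | rfl) | hw) | rfl | rfl
    · exact Or.inl rfl
    · exact Or.inr (Or.inr hy)
    · exact Or.inr (Or.inr (hS1 hw))
    · exact Or.inr (Or.inr hz)
    · exact Or.inr (Or.inl rfl)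
  · exact mem_union_left _ (mem_union_left _ (mem_singleton_self _))

lemma the_cyc (hP : ST_PA) (hC : ST_CA) {G : SimpleGraph V} (φ : Sym2 V → ℤ) {u v : V}
    {P Q : Finset V} {S T : Finset (Sym2 V)} (huv : u ≠ v) (h1 : Pth G u v P S)
    (h2 : Pth G u v Q T) (hPQ : P ∩ Q ⊆ {u, v}) {y : V} (hy : y ∉ P) (hyT : s(u, y) ∈ T) :
    Cyc G (P ∪ Q) (S ∪ T) ∧ ∑ e ∈ S ∪ T, φ e = ∑ e ∈ S, φ e + ∑ e ∈ T, φ e := by
  have hne : S ≠ T := by
    rintro rfl
    obtain ⟨a, ha, b, hb, _, he⟩ := (hP V G).tmem _ _ _ _ h1 _ hyT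
    rcases Sym2.eq_iff.1 he with ⟨_, rfl⟩ | ⟨_, rfl⟩
    · exact hy hb
    · exact hy ha
  obtain ⟨h3, h4⟩ := (hC V G).mk2 _ _ _ _ _ _ h1 h2 huv hPQ hne
  exact ⟨h3, sum_union h4⟩

end

theorem st_THE (h1 : ST_PA) (h2 : ST_CA) : ST_THE := by
  intro V _ _ G φ u v S T L1 L2 huv hp hL1 hL2 hd1 hd2 hd a1 a2 a3 a4 hbad
  have hends := (h1 V G).ends _ _ _ _ hp
  have n1 : ∀ w ∈ S, w ∉ L1 := fun w hw hwL => (Finset.disjoint_left.1 hd1) hwL hw
  have n2 : ∀ w ∈ S, w ∉ L2 := fun w hw hwL => (Finset.disjoint_left.1 hd2) hwL hw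
  have n12 : ∀ w ∈ L1, w ∉ L2 := fun w hw hwL => (Finset.disjoint_left.1 hd) hw hwL
  obtain ⟨P1, Q1, hp1, hs1, y1, hy1, hyQ1⟩ :=
    the_path h1 huv hL1 (n1 u hends.1) (n1 v hends.2) a1 a2
  obtain ⟨P2, Q2, hp2, hs2, y2, hy2, hyQ2⟩ :=
    the_path h1 huv hL2 (n2 u hends.1) (n2 v hends.2) a3 a4
  have i1 : S ∩ P1 ⊆ {u, v} := by
    intro w hw
    obtain ⟨hw1, hw2⟩ := mem_inter.1 hw
    have := hs1 hw2
    rw [mem_insert, mem_insert] at this
    rw [mem_insert, mem_singleton]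
    rcases this with h | h | h
    · exact Or.inl h
    · exact Or.inr h
    · exact absurd h (n1 w hw1)
  have i2 : S ∩ P2 ⊆ {u, v} := by
    intro w hw
    obtain ⟨hw1, hw2⟩ := mem_inter.1 hw
    have := hs2 hw2
    rw [mem_insert, mem_insert] at this
    rw [mem_insert, mem_singleton]
    rcases this with h | h | h
    · exact Or.inl h
    · exact Or.inr h
    · exact absurd h (n2 w hw1)
  have i12 : P1 ∩ P2 ⊆ {u, v} := by
    intro w hw
    obtain ⟨hw1, hw2⟩ := mem_inter.1 hw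
    have g1 := hs1 hw1
    have g2 := hs2 hw2
    rw [mem_insert, mem_insert] at g1 g2
    rw [mem_insert, mem_singleton]
    rcases g1 with h | h | h
    · exact Or.inl h
    · exact Or.inr h
    · rcases g2 with h' | h' | h'
      · exact Or.inl h'
      · exact Or.inr h'
      · exact absurd h' (n12 w h)
  have hy1S : y1 ∉ S := fun h => n1 _ h hy1
  have hy2S : y2 ∉ S := fun h => n2 _ h hy2
  have hy2P1 : y2 ∉ P1 := by
    intro h
    have := hs1 h
    rw [mem_insert, mem_insert] at this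
    rcases this with rfl | rfl | h
    · exact hy2S hends.1
    · exact hy2S hends.2
    · exact n12 _ h hy2
  obtain ⟨c1, s1⟩ := the_cyc h1 h2 φ huv hp hp1 i1 hy1S hyQ1
  obtain ⟨c2, s2⟩ := the_cyc h1 h2 φ huv hp hp2 i2 hy2S hyQ2
  obtain ⟨c3, s3⟩ := the_cyc h1 h2 φ huv hp1 hp2 i12 hy2P1 hyQ2
  have b1 : P1 ⊆ S ∪ (L1 ∪ L2) := by
    intro w hw
    have := hs1 hw
    rw [mem_insert, mem_insert] at this
    rcases this with rfl | rfl | h
    · exact mem_union_left _ hends.1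
    · exact mem_union_left _ hends.2
    · exact mem_union_right _ (mem_union_left _ h)
  have b2 : P2 ⊆ S ∪ (L1 ∪ L2) := by
    intro w hw
    have := hs2 hw
    rw [mem_insert, mem_insert] at this
    rcases this with rfl | rfl | h
    · exact mem_union_left _ hends.1
    · exact mem_union_left _ hends.2
    · exact mem_union_right _ (mem_union_right _ h)
  by_contra hcon
  push Not at hcon
  have k1 := hcon _ _ c1 (union_subset subset_union_left b1)
  have k2 := hcon _ _ c2 (union_subset subset_union_left b2)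
  have k3 := hcon _ _ c3 (union_subset b1 b2)
  rw [s1] at k1
  rw [s2] at k2
  rw [s3] at k3
  apply hbad
  omega

end ErdPos
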